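import Mathlib
import Pool.Agent.Q106.PK.Stm

/-!
Project PK (MP_fc5d3b_co), job DEC1: masks and subsets of the box (helper110).
-/

set_option autoImplicit false

namespace Pool.Agent.Q106.PK

theorem dec1_bt (w i : ℕ) : bt w i ↔ Nat.testBit w i = true := by
  rw [Nat.testBit_eq_decide_div_mod_eq]
  simp [bt]

/-- the cell with number `i` -/
def dec1_cell (n i : ℕ) : ℤ × ℤ := (((i / n : ℕ) : ℤ), ((i % n : ℕ) : ℤ))

theorem dec1_inj {n i j : ℕ} (h : dec1_cell n i = dec1_cell n j) : i = j := by
  unfold dec1_cell at h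
  rw [Prod.mk.injEq] at h
  obtain ⟨h1, h2⟩ := h
  have h1' : i / n = j / n := by exact_mod_cast h1
  have h2' : i % n = j % n := by exact_mod_cast h2
  rw [← Nat.div_add_mod i n, ← Nat.div_add_mod j n, h1', h2']

theorem dec1_mem (n w : ℕ) (p : ℤ × ℤ) :
    p ∈ dec n w ↔ ∃ i, i < n * n ∧ bt w i ∧ dec1_cell n i = p := by
  unfold dec dec1_cell
  simp only [Finset.mem_image, Finset.mem_filter, Finset.mem_range, and_assoc]

theorem dec1_cell_mem (n w i : ℕ) (hi : i < n * n) : dec1_cell n i ∈ dec n w ↔ bt w i := by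
  rw [dec1_mem]
  constructor
  · rintro ⟨j, _, hj, h⟩
    rwa [dec1_inj h] at hj
  · intro h
    exact ⟨i, hi, h, rfl⟩

theorem t_DEC1 : S_DEC1 := by
  classical
  intro n P hP
  refine ⟨Nat.ofBits (fun i : Fin (n * n) => decide (dec1_cell n i ∈ P)),
    ⟨Nat.ofBits_lt_two_pow _, ?_⟩, ?_⟩
  · ext p
    rw [dec1_mem]
    constructor
    · rintro ⟨i, hi, hb, rfl⟩
      rw [dec1_bt, Nat.testBit_ofBits_lt _ _ hi] at hb
      simpa using hb
    · intro hp
      obtain ⟨h1, h2, h3, h4⟩ := hP p hp
      obtain ⟨x, hx⟩ := Int.eq_ofNat_of_zero_le h1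
      obtain ⟨y, hy⟩ := Int.eq_ofNat_of_zero_le h3
      have hx' : x < n := by omega
      have hy' : y < n := by omega
      have hn : 0 < n := by omega
      have hc : dec1_cell n (x * n + y) = p := by
        unfold dec1_cell
        have e1 : (x * n + y) / n = x := by
          rw [mul_comm, Nat.mul_add_div hn, Nat.div_eq_of_lt hy', add_zero]
        have e2 : (x * n + y) % n = y := by
          rw [mul_comm, Nat.mul_add_mod, Nat.mod_eq_of_lt hy']
        rw [e1, e2]
        exact Prod.ext hx.symm hy.symm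
      have hlt : x * n + y < n * n := by
        have : (x + 1) * n ≤ n * n := Nat.mul_le_mul_right n hx'
        have e : (x + 1) * n = x * n + n := by ring
        omega
      refine ⟨x * n + y, hlt, ?_, hc⟩
      rw [dec1_bt, Nat.testBit_ofBits_lt _ _ hlt]
      simp only [hc, decide_eq_true_eq]
      exact hp
  · rintro w ⟨hw, hwP⟩
    apply Nat.eq_of_testBit_eq
    intro i
    by_cases hi : i < n * n
    · rw [Nat.testBit_ofBits_lt _ _ hi, Bool.eq_iff_iff, ← dec1_bt, ← dec1_cell_mem n w i hi, hwP]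
      simp
    · push Not at hi
      rw [Nat.testBit_ofBits_ge _ _ hi]
      exact Nat.testBit_lt_two_pow (lt_of_lt_of_le hw (Nat.pow_le_pow_right (by norm_num) hi))

end Pool.Agent.Q106.PK
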