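import Mathlib
import Pool.Agent.Q106.PK.Stm

/-!
Project PK (MP_fc5d3b_co), job MASK: the number of fixed `n`-ominoes is the number of good masks (helper110).
-/

set_option autoImplicit false

namespace Pool.Agent.Q106.PK

theorem t_MASK (h1 : S_REP) (h2 : S_BOXA) (h3 : S_BOX) (h4 : S_DEC1) (h5 : S_DEC2) : S_MASK := by
  intro n
  rw [h1 n BoxA (fun P hP => h2 P hP.2.1)]
  have hcnt : cnt n = ((Finset.range (2 ^ (n * n))).filter (fun w => Good n w)).card := rfl
  rw [hcnt]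
  have hS : ∀ w : {w // w ∈ (Finset.range (2 ^ (n * n))).filter (fun w => Good n w)},
      w.1 < 2 ^ (n * n) ∧ Good n w.1 := by
    intro w
    have := w.2
    rw [Finset.mem_filter, Finset.mem_range] at this
    exact this
  let f : {w // w ∈ (Finset.range (2 ^ (n * n))).filter (fun w => Good n w)} →
      {P : Finset (ℤ × ℤ) // IsOmino n P ∧ BoxA P} :=
    fun w => ⟨dec n w.1, (h5 n w.1 (hS w).1).mp (hS w).2⟩
  have hbox : ∀ P : Finset (ℤ × ℤ), IsOmino n P → BoxA P →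
      ∀ p ∈ P, 0 ≤ p.1 ∧ p.1 < n ∧ 0 ≤ p.2 ∧ p.2 < n := by
    intro P hP hB p hp
    have e1 := hB.1 p hp
    have e2 := h3 n P hP hB p hp
    exact ⟨e1.1, e2.1, e1.2, e2.2⟩
  have hf : Function.Bijective f := by
    constructor
    · intro w w' hww
      have e : dec n w.1 = dec n w'.1 := congrArg Subtype.val hww
      have hP := (f w).2
      obtain ⟨u, -, hu⟩ := h4 n (dec n w.1) (hbox _ hP.1 hP.2)
      have e1 := hu w.1 ⟨(hS w).1, rfl⟩
      have e2 := hu w'.1 ⟨(hS w').1, e.symm⟩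
      exact Subtype.ext (e1.trans e2.symm)
    · rintro ⟨P, hP, hB⟩
      obtain ⟨w, ⟨hw, hd⟩, -⟩ := h4 n P (hbox P hP hB)
      have hg : Good n w := (h5 n w hw).mpr (by rw [hd]; exact ⟨hP, hB⟩)
      exact ⟨⟨w, Finset.mem_filter.mpr ⟨Finset.mem_range.mpr hw, hg⟩⟩, Subtype.ext hd⟩
  rw [← Nat.card_eq_of_bijective f hf, Nat.card_eq_fintype_card, Fintype.card_coe]

end Pool.Agent.Q106.PK
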