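import Mathlib
import Pool.Agent.Q106.PK.Stm

/-!
Project PK (MP_fc5d3b_co), job PRIM: the counting function is primitive recursive (helper110).
-/

set_option autoImplicit false

namespace Pool.Agent.Q106.PK

section prim

variable {γ : Type} [Primcodable γ]

theorem prim_imp {p q : γ → Prop} (hp : PrimrecPred p) (hq : PrimrecPred q) :
    PrimrecPred fun a => p a → q a :=
  (hp.not.or hq).of_eq fun _ => imp_iff_not_or.symm

theorem prim_ex {f : γ → ℕ} (hf : Primrec f) {R : γ → ℕ → Prop}
    (hR : PrimrecPred fun p : γ × ℕ => R p.1 p.2) : PrimrecPred fun c => ∃ x < f c, R c x := by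
  have h : PrimrecRel fun (x : ℕ) (c : γ) => R c x := hR.comp (Primrec.pair Primrec.snd Primrec.fst)
  exact (h.exists_mem_list.comp (Primrec.list_range.comp hf) Primrec.id).of_eq fun c => by simp

theorem prim_all {f : γ → ℕ} (hf : Primrec f) {R : γ → ℕ → Prop}
    (hR : PrimrecPred fun p : γ × ℕ => R p.1 p.2) : PrimrecPred fun c => ∀ x < f c, R c x := by
  have h : PrimrecRel fun (x : ℕ) (c : γ) => R c x := hR.comp (Primrec.pair Primrec.snd Primrec.fst)
  exact (h.forall_mem_list.comp (Primrec.list_range.comp hf) Primrec.id).of_eq fun c => by simp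

theorem prim_filter {f : γ → ℕ} (hf : Primrec f) {R : γ → ℕ → Prop} [∀ c x, Decidable (R c x)]
    (hR : PrimrecPred fun p : γ × ℕ => R p.1 p.2) :
    Primrec fun c => ((List.range (f c)).filter (fun x => R c x)).length := by
  have h : PrimrecRel fun (x : ℕ) (c : γ) => R c x := hR.comp (Primrec.pair Primrec.snd Primrec.fst)
  let hd : DecidableRel fun (x : ℕ) (c : γ) => R c x := fun x c => inferInstanceAs (Decidable (R c x))
  exact Primrec.list_length.comp ((@PrimrecRel.listFilter ℕ γ (fun (x : ℕ) (c : γ) => R c x) _ _ h hd).comp (Primrec.list_range.comp hf) Primrec.id)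

theorem prim_pow : Primrec₂ ((· ^ ·) : ℕ → ℕ → ℕ) := Primrec₂.unpaired'.1 Nat.Primrec.pow

theorem prim_bt {w i : γ → ℕ} (hw : Primrec w) (hi : Primrec i) :
    PrimrecPred fun c => bt (w c) (i c) :=
  Primrec.eq.comp (Primrec.nat_mod.comp (Primrec.nat_div.comp hw
    (prim_pow.comp (Primrec.const 2) hi)) (Primrec.const 2)) (Primrec.const 1)

theorem prim_nadj {n i j : γ → ℕ} (hn : Primrec n) (hi : Primrec i) (hj : Primrec j) :
    PrimrecPred fun c => nadj (n c) (i c) (j c) := by
  have hid := Primrec.nat_div.comp hi hn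
  have hjd := Primrec.nat_div.comp hj hn
  have him := Primrec.nat_mod.comp hi hn
  have hjm := Primrec.nat_mod.comp hj hn
  exact ((Primrec.eq.comp hid hjd).and
    ((Primrec.eq.comp him (Primrec.succ.comp hjm)).or (Primrec.eq.comp hjm (Primrec.succ.comp him)))).or
    ((Primrec.eq.comp him hjm).and
    ((Primrec.eq.comp hid (Primrec.succ.comp hjd)).or (Primrec.eq.comp hjd (Primrec.succ.comp hid))))

theorem prim_sub {n w s : γ → ℕ} (hn : Primrec n) (hw : Primrec w) (hs : Primrec s) :
    PrimrecPred fun c => Sub (n c) (w c) (s c) := by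
  have hnn : Primrec fun c => n c * n c := Primrec.nat_mul.comp hn hn
  have F : ∀ {f : γ → ℕ}, Primrec f → Primrec fun p : γ × ℕ => f p.1 := fun hf => hf.comp Primrec.fst
  have S : Primrec fun p : γ × ℕ => p.2 := Primrec.snd
  have F2 : ∀ {f : γ → ℕ}, Primrec f → Primrec fun p : (γ × ℕ) × ℕ => f p.1.1 :=
    fun hf => hf.comp (Primrec.fst.comp Primrec.fst)
  have S1 : Primrec fun p : (γ × ℕ) × ℕ => p.1.2 := Primrec.snd.comp Primrec.fst
  have S2 : Primrec fun p : (γ × ℕ) × ℕ => p.2 := Primrec.snd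
  refine prim_imp (prim_all hnn (prim_imp (prim_bt (F hs) S) (prim_bt (F hw) S))) ?_
  refine prim_imp (prim_ex hnn (prim_bt (F hs) S)) ?_
  refine prim_imp (prim_ex hnn ((prim_bt (F hw) S).and (prim_bt (F hs) S).not)) ?_
  refine prim_ex hnn ?_
  exact prim_ex (γ := γ × ℕ) (f := fun p => n p.1 * n p.1)
    (R := fun p j => bt (s p.1) p.2 ∧ bt (w p.1) j ∧ ¬ bt (s p.1) j ∧ nadj (n p.1) p.2 j) (F hnn)
    ((prim_bt (F2 hs) S1).and ((prim_bt (F2 hw) S2).and ((prim_bt (F2 hs) S2).not.and
      (prim_nadj (F2 hn) S1 S2))))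

theorem prim_good {n w : γ → ℕ} (hn : Primrec n) (hw : Primrec w) :
    PrimrecPred fun c => Good (n c) (w c) := by
  have hnn : Primrec fun c => n c * n c := Primrec.nat_mul.comp hn hn
  have F : ∀ {f : γ → ℕ}, Primrec f → Primrec fun p : γ × ℕ => f p.1 := fun hf => hf.comp Primrec.fst
  have S : Primrec fun p : γ × ℕ => p.2 := Primrec.snd
  refine PrimrecPred.and (Primrec.eq.comp (prim_filter hnn (prim_bt (F hw) S)) hn) ?_
  refine PrimrecPred.and (prim_ex hn (prim_bt (F hw) S)) ?_
  refine PrimrecPred.and (prim_ex hn (prim_bt (F hw) (Primrec.nat_mul.comp S (F hn)))) ?_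
  exact prim_all (prim_pow.comp (Primrec.const 2) hnn) (prim_sub (F hn) (F hw) S)

end prim

theorem t_PRIM : S_PRIM :=
  prim_filter (γ := ℕ) (f := fun n => 2 ^ (n * n)) (R := fun n w => Good n w)
    (prim_pow.comp (Primrec.const 2) (Primrec.nat_mul.comp Primrec.id Primrec.id))
    (prim_good Primrec.fst Primrec.snd)

end Pool.Agent.Q106.PK
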