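import Pool.Agent.Q201.AR.Stm

/-!
Project AR (MP_f714b8_lc), job IOTA: the map `ι` is definable from its restriction to the copy and
the chains (helper110).
-/

set_option autoImplicit false

open FirstOrder FirstOrder.Language Pool.Agent.Helper227.EN

namespace Pool.Agent.Q110.AR_IOTA

open Q201.AR

theorem t_IOTA : S_IOTA := by
  intro L k c hk P C Pr A B
  refine ⟨P.relabel (fun _ => (1 : Fin 2)) ⊓ ((P.relabel (fun _ => (0 : Fin 2)) ⊓ A) ⊔
    Formula.iSup fun i : Fin c => Formula.iExs (Fin 1 ⊕ Fin k)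
      ((C i).relabel (![Sum.inl 0, Sum.inr (Sum.inl 0)] : Fin 2 → Fin 2 ⊕ (Fin 1 ⊕ Fin k)) ⊓
        ((Formula.iInf fun l : Fin k => (Pr l).relabel
          (![Sum.inr (Sum.inl 0), Sum.inr (Sum.inr l)] : Fin 2 → Fin 2 ⊕ (Fin 1 ⊕ Fin k))) ⊓
        (B i).relabel (Fin.snoc (α := fun _ => Fin 2 ⊕ (Fin 1 ⊕ Fin k))
          (fun l : Fin k => Sum.inr (Sum.inr l)) (Sum.inl 1))))), ?_⟩
  intro M _ ι code hg hP hC hPr hA hB v
  simp only [Formula.realize_inf, Formula.realize_sup, Formula.realize_iSup, Formula.realize_iExs,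
    Formula.realize_iInf, Formula.realize_relabel]
  have hAv : ∀ a b, v 0 = ι a → v 1 = ι b → (A.Realize v ↔ ι a = b) := by
    intro a b ha hb
    have h1 := hA ![a, b]
    have h2 : ι ∘ ![a, b] = v := by
      funext i
      fin_cases i
      · exact ha.symm
      · exact hb.symm
    rw [h2] at h1
    exact h1
  have hBv : ∀ (i : Fin c) (s : Fin 1 ⊕ Fin k → M) (t : Fin k → M) (b : M),
      (∀ l, s (Sum.inr l) = ι (t l)) → v 1 = ι b →
      ((B i).Realize (Sum.elim v s ∘ (Fin.snoc (α := fun _ => Fin 2 ⊕ (Fin 1 ⊕ Fin k))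
          (fun l : Fin k => Sum.inr (Sum.inr l)) (Sum.inl 1))) ↔ code i t = b) := by
    intro i s t b hs hb
    have h1 := hB i i.2 (Fin.snoc (α := fun _ => M) t b)
    have h2 : ι ∘ (Fin.snoc (α := fun _ => M) t b : Fin (k + 1) → M) = Sum.elim v s ∘
        (Fin.snoc (α := fun _ => Fin 2 ⊕ (Fin 1 ⊕ Fin k))
          (fun l : Fin k => Sum.inr (Sum.inr l)) (Sum.inl 1)) := by
      funext i
      refine Fin.lastCases ?_ (fun l => ?_) i
      · simp [hb]
      · simp [hs]
    rw [h2] at h1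
    simpa using h1
  constructor
  · rintro ⟨h1, h2⟩
    rw [hP] at h1
    obtain ⟨b, hb⟩ := h1
    have hb' : v 1 = ι b := hb
    rcases h2 with ⟨h2, h3⟩ | ⟨i, s, h2, h3, h4⟩
    · rw [hP] at h2
      obtain ⟨a, ha⟩ := h2
      have ha' : v 0 = ι a := ha
      rw [hAv a b ha' hb'] at h3
      rw [ha', h3, hb']
    · rw [hC i i.2] at h2
      obtain ⟨t, ht1, ht2⟩ := h2
      have ht1' : v 0 = code i t := ht1
      have ht2' : s (Sum.inl 0) = code 0 t := ht2
      have hs : ∀ l, s (Sum.inr l) = ι (t l) := by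
        intro l
        have h5 := h3 l
        rw [hPr l] at h5
        obtain ⟨t', ht1, ht3⟩ := h5
        have h6 : s (Sum.inl 0) = code 0 t' := ht1
        have h7 : s (Sum.inr l) = ι (t' l) := ht3
        have hc0 : 0 < c := i.pos
        have h8 := (hg.cinj 0 0 t t' hc0 hc0 (ht2'.symm.trans h6)).2
        rw [h8]
        exact h7
      rw [hBv i s t b hs hb'] at h4
      rw [ht1', h4, hb']
  · intro hv
    refine ⟨?_, ?_⟩
    · rw [hP]
      exact ⟨v 0, hv.symm⟩
    · rcases hg.surj (v 0) with ⟨a, ha⟩ | ⟨i, hi, t, ht⟩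
      · left
        refine ⟨?_, ?_⟩
        · rw [hP]
          exact ⟨a, ha⟩
        · rw [hAv a (v 0) ha hv.symm]
          exact ha.symm
      · right
        refine ⟨⟨i, hi⟩, Sum.elim (fun _ => code 0 t) (fun l => ι (t l)), ?_, ?_, ?_⟩
        · rw [hC i hi]
          exact ⟨t, ht, rfl⟩
        · intro l
          rw [hPr l]
          exact ⟨t, rfl, rfl⟩
        · rw [hBv ⟨i, hi⟩ _ t (v 0) (fun _ => rfl) hv.symm]
          exact ht.symm

end Pool.Agent.Q110.AR_IOTA
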