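import Pool.Agent.Q201.AR.Stm

/-!
Project AR (MP_f714b8_lc), job REL: a relation of the first coordinates on the copy (helper110).
-/

set_option autoImplicit false

open FirstOrder FirstOrder.Language Pool.Agent.Helper227.EN

namespace Pool.Agent.Q110.AR_REL

open Q201.AR

theorem t_REL : S_REL := by
  intro hDP hDC hDPR hDS k r j n h
  have h1 := fun l : Fin n => hDPR hDP hDC k r (Fin.castLE h l)
  choose Cf hCf using h1
  obtain ⟨D, hD⟩ := hDS hDC k r j
  refine ⟨Formula.iExs (Fin 1)
    ((Formula.iInf fun l : Fin n => (Cf l).relabel (![Sum.inr 0, Sum.inl l] : Fin 2 → Fin n ⊕ Fin 1)) ⊓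
      D.relabel (fun _ => (Sum.inr 0 : Fin n ⊕ Fin 1))), ?_⟩
  intro M _ _ ι code S Q hc hSQ u
  rw [Formula.realize_iExs]
  simp only [Formula.realize_inf, Formula.realize_iInf, Formula.realize_relabel]
  have hpos : 0 < k + r := by
    have := hc.kpos
    omega
  constructor
  · rintro ⟨z, hz1, hz2⟩
    rw [hD M ι code S hc] at hz2
    obtain ⟨t, ht, hS⟩ := hz2
    rw [hSQ] at hS
    have e : (fun l => t (Fin.castLE h l)) = u := by
      funext l
      have h2 := hz1 l
      rw [hCf l M ι code S hc] at h2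
      obtain ⟨t', ht', hu⟩ := h2
      have h3 : z 0 = code 0 t := ht
      have h4 : z 0 = code 0 t' := ht'
      have h5 : ι (u l) = ι (t' (Fin.castLE h l)) := hu
      have h6 := (hc.good.cinj 0 0 t t' hpos hpos (h3.symm.trans h4)).2
      rw [h6]
      exact (hc.good.inj h5).symm
    rwa [e] at hS
  · intro hQ
    obtain ⟨m⟩ := (inferInstance : Nonempty M)
    let t : Fin k → M := fun i => if hi : (i : ℕ) < n then u ⟨i, hi⟩ else m
    have ht : ∀ l : Fin n, t (Fin.castLE h l) = u l := by
      intro l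
      simp only [t, Fin.val_castLE, l.2, dif_pos]
    refine ⟨fun _ => code 0 t, ?_, ?_⟩
    · intro l
      rw [hCf l M ι code S hc]
      refine ⟨t, rfl, ?_⟩
      rw [ht l]
      rfl
    · rw [hD M ι code S hc]
      refine ⟨t, rfl, ?_⟩
      rw [hSQ]
      have e : (fun l => t (Fin.castLE h l)) = u := funext ht
      rw [e]
      exact hQ

end Pool.Agent.Q110.AR_REL
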