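import Mathlib
import Pool.Agent.Q82.BC.Stm

/-!
# Project BC: the blow-up rate (`S_RATE`)
-/

set_option autoImplicit false

open MeasureTheory Filter Topology Set
open Pool.Agent.Q82.BB (chi mu lam IsSh cv Nl Good UU Tower bump)

namespace Pool.Agent.Q82.BC

private lemma rate_chi_one {ξ : ℝ} (h : |ξ| ≤ 2) : chi ξ = 1 := by
  unfold chi
  apply bump.one_of_mem_closedBall
  rw [Metric.mem_closedBall, dist_zero_right, Real.norm_eq_abs]
  exact h

private lemma rate_chi_zero {ξ : ℝ} (h : 3 ≤ |ξ|) : chi ξ = 0 := by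
  unfold chi
  apply bump.zero_of_le_dist
  rw [dist_zero_right, Real.norm_eq_abs]
  exact h

private lemma rate_chi_nonneg (ξ : ℝ) : 0 ≤ chi ξ := bump.nonneg

private lemma rate_chi_le (ξ : ℝ) : chi ξ ≤ 1 := bump.le_one

private lemma rate_chi_cont : Continuous chi := by
  unfold chi
  exact bump.continuous

private lemma rate_lam_le (ξ : ℝ) : lam ξ ≤ ξ ^ 2 := by
  unfold lam mu
  apply Real.sqrt_le_iff.2
  refine ⟨sq_nonneg _, ?_⟩
  nlinarith [sq_nonneg ξ]

private lemma rate_le_lam {ξ : ℝ} (h : 2 ≤ |ξ|) : ξ ^ 2 / 2 ≤ lam ξ := by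
  unfold lam mu
  apply Real.le_sqrt_of_sq_le
  have h4 : 4 ≤ ξ ^ 2 := by
    rw [← sq_abs]
    nlinarith
  nlinarith [sq_nonneg ξ]

/-- the real linear part -/
private noncomputable def rate_g (ξ τ : ℝ) : ℝ := (1 - chi ξ) * |ξ| * Real.exp (-(lam ξ * τ))

private lemma rate_g_cont (τ : ℝ) : Continuous (fun ξ => rate_g ξ τ) := by
  unfold rate_g lam mu
  have := rate_chi_cont
  fun_prop

private lemma rate_g_nonneg (ξ τ : ℝ) : 0 ≤ rate_g ξ τ := by
  unfold rate_g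
  have := rate_chi_le ξ
  have h1 : 0 ≤ 1 - chi ξ := by linarith
  positivity

private lemma rate_g_le (ξ : ℝ) {τ : ℝ} (hτ : 0 < τ) :
    rate_g ξ τ ≤ |ξ| * Real.exp (-(τ / 2) * |ξ| ^ 2) := by
  unfold rate_g
  rcases le_or_gt |ξ| 2 with h | h
  · rw [rate_chi_one h]
    simp only [sub_self, zero_mul]
    positivity
  · have h0 := rate_chi_nonneg ξ
    have h1 : (1 - chi ξ) * |ξ| ≤ |ξ| := by
      have := abs_nonneg ξ
      nlinarith
    have h2 : Real.exp (-(lam ξ * τ)) ≤ Real.exp (-(τ / 2) * |ξ| ^ 2) := by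
      apply Real.exp_le_exp.2
      have h3 := rate_le_lam h.le
      rw [sq_abs]
      nlinarith
    exact mul_le_mul h1 h2 (Real.exp_nonneg _) (abs_nonneg _)

private lemma rate_le_g (ξ : ℝ) {τ : ℝ} (hτ : 0 < τ) :
    |ξ| * Real.exp (-τ * |ξ| ^ 2) - (Icc (-3 : ℝ) 3).indicator (fun _ => (3 : ℝ)) ξ ≤
      rate_g ξ τ := by
  rcases le_or_gt |ξ| 3 with h | h
  · have hm : ξ ∈ Icc (-3 : ℝ) 3 := abs_le.1 h
    rw [indicator_of_mem hm]
    have h1 : Real.exp (-τ * |ξ| ^ 2) ≤ 1 := by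
      apply Real.exp_le_one_iff.2
      have : 0 ≤ |ξ| ^ 2 := by positivity
      nlinarith
    have h2 : |ξ| * Real.exp (-τ * |ξ| ^ 2) ≤ 3 * 1 :=
      mul_le_mul h h1 (Real.exp_nonneg _) (by norm_num)
    have h3 := rate_g_nonneg ξ τ
    linarith
  · have hm : ξ ∉ Icc (-3 : ℝ) 3 := by
      intro hm
      have := abs_le.2 hm
      linarith
    rw [indicator_of_notMem hm, sub_zero]
    unfold rate_g
    rw [rate_chi_zero h.le, sub_zero, one_mul]
    apply mul_le_mul_of_nonneg_left _ (abs_nonneg _)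
    apply Real.exp_le_exp.2
    have h3 := rate_lam_le ξ
    rw [sq_abs]
    nlinarith

private lemma rate_int_gauss {b : ℝ} (hb : 0 < b) :
    Integrable (fun ξ : ℝ => |ξ| * Real.exp (-b * |ξ| ^ 2)) ∧
      ∫ ξ : ℝ, |ξ| * Real.exp (-b * |ξ| ^ 2) = 1 / b := by
  have h1 : Integrable (fun ξ : ℝ => ξ * Real.exp (-b * ξ ^ 2)) :=
    integrable_mul_exp_neg_mul_sq hb
  constructor
  · have h2 := h1.norm
    refine h2.congr (Eventually.of_forall fun ξ => ?_)
    simp only [norm_mul, Real.norm_eq_abs, Real.abs_exp, sq_abs]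
  · rw [integral_comp_abs (f := fun x : ℝ => x * Real.exp (-b * x ^ 2))]
    have h3 := integral_rpow_mul_exp_neg_mul_rpow (p := 2) (q := 1) (b := b) (by norm_num)
      (by norm_num) hb
    have h4 : ∫ x : ℝ in Ioi 0, x * Real.exp (-b * x ^ 2) =
        ∫ x : ℝ in Ioi 0, x ^ (1 : ℝ) * Real.exp (-b * x ^ (2 : ℝ)) := by
      refine setIntegral_congr_fun measurableSet_Ioi fun x _ => ?_
      simp only [Real.rpow_one, Real.rpow_two]
    rw [h4, h3]
    have h5 : (-(1 + 1) / 2 : ℝ) = -1 := by norm_num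
    have h6 : ((1 + 1) / 2 : ℝ) = 1 := by norm_num
    rw [h5, h6, Real.rpow_neg_one, Real.Gamma_one]
    field_simp

private lemma rate_integrable_abs {f : ℝ → ℝ} (hf : IntegrableOn f (Ioi 0)) :
    Integrable (fun x => f |x|) := by
  have h1 : IntegrableOn (fun x => f |x|) (Ioi 0) :=
    hf.congr_fun (fun x hx => by rw [abs_of_pos hx]) measurableSet_Ioi
  have h2 : IntegrableOn (fun x => f |x|) (Iic 0) := by
    rw [← Measure.map_neg_eq_self (volume : Measure ℝ)]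
    let m : MeasurableEmbedding fun x : ℝ => -x := (Homeomorph.neg ℝ).measurableEmbedding
    rw [m.integrableOn_map_iff]
    simp_rw [Function.comp_def, abs_neg, neg_preimage, neg_Iic, neg_zero]
    exact Iff.mpr integrableOn_Ici_iff_integrableOn_Ioi h1
  rw [← integrableOn_univ, ← Iic_union_Ioi (a := (0 : ℝ))]
  exact h2.union h1

private lemma rate_int_exp {a : ℝ} (ha : 0 < a) :
    Integrable (fun ξ : ℝ => (1 + |ξ|) * Real.exp (-(a * |ξ|))) ∧
      ∫ ξ : ℝ, (1 + |ξ|) * Real.exp (-(a * |ξ|)) = 2 / a + 2 / a ^ 2 := by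
  have i1 : ∫ x : ℝ in Ioi 0, Real.exp (-(a * x)) = 1 / a := by
    have := Real.integral_rpow_mul_exp_neg_mul_Ioi (a := 1) (r := a) (by norm_num) ha
    simpa using this
  have i2 : ∫ x : ℝ in Ioi 0, x * Real.exp (-(a * x)) = 1 / a ^ 2 := by
    have := Real.integral_rpow_mul_exp_neg_mul_Ioi (a := 2) (r := a) (by norm_num) ha
    norm_num at this
    simpa [Real.Gamma_two] using this
  have e1 : IntegrableOn (fun x : ℝ => Real.exp (-(a * x))) (Ioi 0) := by
    apply Integrable.of_integral_ne_zero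
    rw [i1]
    positivity
  have e2 : IntegrableOn (fun x : ℝ => x * Real.exp (-(a * x))) (Ioi 0) := by
    apply Integrable.of_integral_ne_zero
    rw [i2]
    positivity
  have e3 : IntegrableOn (fun x : ℝ => (1 + x) * Real.exp (-(a * x))) (Ioi 0) := by
    simp only [add_mul, one_mul]
    exact e1.add e2
  refine ⟨rate_integrable_abs e3, ?_⟩
  rw [integral_comp_abs (f := fun x : ℝ => (1 + x) * Real.exp (-(a * x)))]
  have : ∫ x : ℝ in Ioi 0, (1 + x) * Real.exp (-(a * x)) = 1 / a + 1 / a ^ 2 := by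
    simp only [add_mul, one_mul]
    rw [integral_add e1 e2, i1, i2]
  rw [this]
  ring

/-- The part of `n`. -/
private lemma rate_int_er {τ : ℝ} (hτ : 0 < τ) (hτ1 : τ ≤ 1) :
    Integrable (fun ξ : ℝ => (1 + |ξ|) * er ξ τ) ∧
      ∫ ξ : ℝ, (1 + |ξ|) * er ξ τ ≤ 544 / τ := by
  have hs : 0 < Real.sqrt τ := Real.sqrt_pos.2 hτ
  have hsq : Real.sqrt τ ^ 2 = τ := Real.sq_sqrt hτ.le
  have hs1 : Real.sqrt τ ≤ 1 := Real.sqrt_le_one.2 hτ1
  have e : ∀ ξ : ℝ, (1 + |ξ|) * er ξ τ = (1 + |ξ|) * Real.exp (-(Real.sqrt τ / 16 * |ξ|)) := by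
    intro ξ
    unfold er
    congr 3
    ring
  simp only [e]
  obtain ⟨h1, h2⟩ := rate_int_exp (a := Real.sqrt τ / 16) (by positivity)
  refine ⟨h1, ?_⟩
  rw [h2]
  have h3 : 2 / (Real.sqrt τ / 16) + 2 / (Real.sqrt τ / 16) ^ 2 =
      (32 * Real.sqrt τ + 512) / Real.sqrt τ ^ 2 := by
    field_simp
    ring
  rw [h3, hsq]
  apply div_le_div_of_nonneg_right _ hτ.le
  linarith

/-- The linear part. -/
private lemma rate_int_g {τ : ℝ} (hτ : 0 < τ) (hτ1 : τ ≤ 1 / 36) :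
    Integrable (fun ξ : ℝ => rate_g ξ τ) ∧
      1 / (2 * τ) ≤ ∫ ξ : ℝ, rate_g ξ τ ∧ ∫ ξ : ℝ, rate_g ξ τ ≤ 2 / τ := by
  obtain ⟨a1, a2⟩ := rate_int_gauss (b := τ / 2) (by positivity)
  obtain ⟨b1, b2⟩ := rate_int_gauss (b := τ) hτ
  have hi : Integrable (fun ξ : ℝ => rate_g ξ τ) := by
    refine a1.mono' (rate_g_cont τ).aestronglyMeasurable (Eventually.of_forall fun ξ => ?_)
    rw [Real.norm_eq_abs, abs_of_nonneg (rate_g_nonneg ξ τ)]
    exact rate_g_le ξ hτ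
  refine ⟨hi, ?_, ?_⟩
  · have hc : Integrable ((Icc (-3 : ℝ) 3).indicator (fun _ => (3 : ℝ))) := by
      rw [integrable_indicator_iff measurableSet_Icc]
      exact integrableOn_const (by simp)
    have hc2 : ∫ ξ : ℝ, (Icc (-3 : ℝ) 3).indicator (fun _ => (3 : ℝ)) ξ = 18 := by
      rw [integral_indicator measurableSet_Icc]
      simp
      norm_num
    have h1 := integral_mono (b1.sub hc) hi (fun ξ => rate_le_g ξ hτ)
    simp only [Pi.sub_apply] at h1
    rw [integral_sub b1 hc, b2, hc2] at h1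
    refine le_trans ?_ h1
    have : 18 ≤ 1 / (2 * τ) := by
      rw [le_div_iff₀ (by positivity)]
      linarith
    have h2 : 1 / τ = 1 / (2 * τ) + 1 / (2 * τ) := by
      field_simp
      norm_num
    linarith
  · have h1 := integral_mono hi a1 (fun ξ => rate_g_le ξ hτ)
    rw [a2] at h1
    refine h1.trans_eq ?_
    field_simp

theorem rate1 : S_RATE := by
  intro T M hT hM
  refine ⟨1 / (2176 * M), by positivity, fun ε hε hε1 w n hw hwn hn => ?_⟩
  refine ⟨ε / 4, 3 * ε, min (1 / 36) (T / 2), by positivity, by positivity, by positivity, ?_, ?_⟩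
  · exact (min_le_right _ _).trans_lt (by linarith)
  intro τ hτ hτ0
  have hτ1 : τ ≤ 1 / 36 := hτ0.trans (min_le_left _ _)
  have hτ2 : τ ≤ T / 2 := hτ0.trans (min_le_right _ _)
  have hτT : τ ∈ Ioo 0 T := ⟨hτ, by linarith⟩
  obtain ⟨g1, g2, g3⟩ := rate_int_g hτ hτ1
  obtain ⟨e1, e2⟩ := rate_int_er hτ (by linarith)
  have hwc : Continuous (fun ξ => w ξ τ) := by
    have h1 : Continuous (fun ξ : ℝ => ((ξ, τ) : ℝ × ℝ)) := by fun_prop
    exact hw.comp_continuous h1 (fun ξ => ⟨mem_univ _, hτ, hτT.2.le⟩)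
  have hw02 : ∀ ξ, w02 ε ξ τ = ((ε * rate_g ξ τ : ℝ) : ℂ) := by
    intro ξ
    unfold w02 rate_g
    congr 1
    ring
  have hgc : Continuous (fun ξ => ((ε * rate_g ξ τ : ℝ) : ℂ)) :=
    Complex.continuous_ofReal.comp (continuous_const.mul (rate_g_cont τ))
  have hgi : Integrable (fun ξ => ((ε * rate_g ξ τ : ℝ) : ℂ)) := (g1.const_mul ε).ofReal
  have hnw : ∀ ξ, n ξ τ = w ξ τ - ((ε * rate_g ξ τ : ℝ) : ℂ) := by
    intro ξ
    rw [← hw02, hwn ξ τ hτT]
    ring
  have hnc : Continuous (fun ξ => n ξ τ) := by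
    simp only [hnw]
    exact hwc.sub hgc
  have hni : Integrable (fun ξ => n ξ τ) := by
    refine (e1.const_mul (M * ε ^ 2)).mono' hnc.aestronglyMeasurable
      (Eventually.of_forall fun ξ => hn ξ τ hτT)
  have hnb : ‖∫ ξ, n ξ τ‖ ≤ ε / (4 * τ) := by
    have h1 : ‖∫ ξ, n ξ τ‖ ≤ ∫ ξ, M * ε ^ 2 * ((1 + |ξ|) * er ξ τ) :=
      norm_integral_le_of_norm_le (e1.const_mul (M * ε ^ 2))
        (Eventually.of_forall fun ξ => hn ξ τ hτT)
    rw [integral_const_mul] at h1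
    refine h1.trans ?_
    have h2 : M * ε ^ 2 * ∫ ξ, (1 + |ξ|) * er ξ τ ≤ M * ε ^ 2 * (544 / τ) :=
      mul_le_mul_of_nonneg_left e2 (by positivity)
    refine h2.trans ?_
    have h3 : M * ε * 2176 ≤ 1 := by
      rw [le_div_iff₀ (by positivity)] at hε1
      linarith
    have h4 : M * ε ^ 2 * (544 / τ) = (M * ε * 2176) * (ε / (4 * τ)) := by
      field_simp
      norm_num
    rw [h4]
    have : 0 ≤ ε / (4 * τ) := by positivity
    nlinarith
  have hwi : (∫ ξ, w ξ τ) = ((ε * ∫ ξ, rate_g ξ τ : ℝ) : ℂ) + ∫ ξ, n ξ τ := by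
    have h1 : ∀ ξ, w ξ τ = ((ε * rate_g ξ τ : ℝ) : ℂ) + n ξ τ := by
      intro ξ
      rw [hnw]
      ring
    simp only [h1]
    rw [integral_add hgi hni, integral_complex_ofReal, integral_const_mul]
  have hre : (∫ ξ, w ξ τ).re = ε * (∫ ξ, rate_g ξ τ) + (∫ ξ, n ξ τ).re := by
    rw [hwi, Complex.add_re, Complex.ofReal_re]
  have hb := abs_le.1 ((Complex.abs_re_le_norm _).trans hnb)
  rw [hre]
  have k1 : ε * (1 / (2 * τ)) ≤ ε * ∫ ξ, rate_g ξ τ := mul_le_mul_of_nonneg_left g2 hε.le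
  have k2 : ε * (∫ ξ, rate_g ξ τ) ≤ ε * (2 / τ) := mul_le_mul_of_nonneg_left g3 hε.le
  have k3 : ε * (1 / (2 * τ)) = ε / (4 * τ) + ε / 4 / τ := by
    field_simp
    norm_num
  have k4 : 3 * ε / τ = ε * (2 / τ) + ε / τ := by
    field_simp
    norm_num
  have k5 : ε / (4 * τ) ≤ ε / τ := by
    apply div_le_div_of_nonneg_left hε.le hτ
    linarith
  constructor
  · linarith [hb.1]
  · linarith [hb.2]

end Pool.Agent.Q82.BC
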