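import Pool.Agent.Q17.ML2.Stm

/-!
# Project CA, part EX: the symmetric group acting on `k`-tuples (helper110)
-/

set_option autoImplicit false

namespace Pool.Agent.Q110.CAEX

open Pool.Agent.Q17.ML2

theorem t_EX : S_EX := by
  intro n k hn hk hkn W U hW hU
  have hn0 : 0 < n := by omega
  let z : Fin n := ⟨0, hn0⟩
  have hUs : U = MulAction.stabilizer (Equiv.Perm (Fin n)) z := by
    ext σ
    rw [hU, MulAction.mem_stabilizer_iff]
    constructor
    · intro h
      exact h z rfl
    · intro h i hi
      have : i = z := Fin.ext hi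
      rw [this]
      exact h
  have hUi : U.index = n := by
    rw [hUs, MulAction.index_stabilizer_of_transitive, Nat.card_eq_fintype_card, Fintype.card_fin]
  refine ⟨?_, ?_, ?_⟩
  · intro σ hσ
    rw [hU]
    intro i hi
    exact (hW σ).mp hσ i (by omega)
  · rw [Subgroup.eq_bot_iff_forall]
    intro g hg
    ext1 i
    have h1 : Equiv.swap i z * g * (Equiv.swap i z)⁻¹ ∈ U := hg (Equiv.swap i z)
    have h2 := (hU _).mp h1 z rfl
    simp only [Equiv.swap_inv, Equiv.Perm.mul_apply, Equiv.swap_apply_right] at h2
    have h3 := congrArg (Equiv.swap i z) h2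
    simpa using h3
  · let ι : Fin 3 ↪ Fin n := Fin.castLEEmb (by omega)
    have hle : W ≤ MulAction.stabilizer (Equiv.Perm (Fin n)) ι := by
      intro σ hσ
      rw [MulAction.mem_stabilizer_iff]
      ext j
      have h1 := (hW σ).mp hσ (ι j) (by
        have : ((ι j : Fin n) : ℕ) = j := rfl
        rw [this]
        have := j.2
        omega)
      have h2 : (σ • ι) j = σ (ι j) := rfl
      rw [h2, h1]
    have h1 : (MulAction.stabilizer (Equiv.Perm (Fin n)) ι).index = n.descFactorial 3 := by
      have : MulAction.IsPretransitive (Equiv.Perm (Fin n)) (Fin 3 ↪ Fin n) :=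
        Equiv.Perm.isMultiplyPretransitive (Fin n) 3
      rw [MulAction.index_stabilizer_of_transitive, Nat.card_eq_fintype_card,
        Fintype.card_embedding_eq, Fintype.card_fin, Fintype.card_fin]
    have h2 : n.descFactorial 3 ≤ W.index := by
      rw [← h1]
      exact Nat.le_of_dvd (Nat.pos_of_ne_zero Subgroup.index_ne_zero_of_finite)
        (Subgroup.index_dvd_of_le hle)
    refine le_trans ?_ h2
    rw [hUi]
    obtain ⟨m, rfl⟩ := Nat.exists_eq_add_of_le hn
    have h3 : (12 + m).descFactorial 3 = (12 + m) * (11 + m) * (10 + m) := by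
      simp only [Nat.descFactorial]
      have e1 : 12 + m - 2 = 10 + m := by omega
      have e2 : 12 + m - 1 = 11 + m := by omega
      have e3 : 12 + m - 0 = 12 + m := by omega
      rw [e1, e2, e3]
      ring
    rw [h3]
    nlinarith [Nat.zero_le m, Nat.zero_le (m * m), Nat.zero_le (m * m * m)]

end Pool.Agent.Q110.CAEX
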