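import Pool.Agent.Q17.ML2.Stm

/-!
# Project CA, part PG: the permutation groups (helper110)
-/

set_option autoImplicit false

namespace Pool.Agent.Q110.CAPG

open Pool.Agent.Q17.ML2
open Pool.Agent.TH444.ML (ind ind_swap one_le_ind swap_of_ind HasGp)

section

variable {H : Type} [Group H] {W : Subgroup H} {n : ℕ} {G : Subgroup (Equiv.Perm (Fin n))}

theorem deg (hG : IsC2WrS H W G) : n = 2 * W.index := by
  obtain ⟨f, -⟩ := hG
  have := Nat.card_congr f
  rw [Nat.card_prod] at this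
  have h2 : W.index = Nat.card (H ⧸ W) := rfl
  rw [h2]
  simpa [mul_comm] using this

theorem exists_ind_one (hG : IsC2WrS H W G) : ∃ g ∈ G, g ≠ 1 ∧ ind g = 1 := by
  obtain ⟨f, hf⟩ := hG
  have hab : f.symm (((1 : H) : H ⧸ W), false) ≠ f.symm (((1 : H) : H ⧸ W), true) := by
    intro h
    have := f.symm.injective h
    simp at this
  refine ⟨Equiv.swap (f.symm (((1 : H) : H ⧸ W), false)) (f.symm (((1 : H) : H ⧸ W), true)), ?_, ?_,
    ind_swap hab⟩
  · rw [hf]
    refine ⟨1, fun i => ?_⟩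
    rw [one_smul]
    by_cases h1 : i = f.symm (((1 : H) : H ⧸ W), false)
    · subst h1; rw [Equiv.swap_apply_left]; simp
    · by_cases h2 : i = f.symm (((1 : H) : H ⧸ W), true)
      · subst h2; rw [Equiv.swap_apply_right]; simp
      · rw [Equiv.swap_apply_of_ne_of_ne h1 h2]
  · intro h
    exact hab (Equiv.swap_eq_one_iff.1 h)

theorem least_ind (hG : IsC2WrS H W G) : IsLeast {k : ℕ | ∃ g ∈ G, g ≠ 1 ∧ k = ind g} 1 := by
  constructor
  · obtain ⟨g, h1, h2, h3⟩ := exists_ind_one hG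
    exact ⟨g, h1, h2, h3.symm⟩
  · rintro k ⟨g, -, h2, rfl⟩
    exact one_le_ind g h2

theorem block_of_swap {f : Fin n ≃ (H ⧸ W) × Bool}
    (hf : ∀ π : Equiv.Perm (Fin n), π ∈ G ↔ ∃ h : H, ∀ i, (f (π i)).1 = h • (f i).1)
    {a b : Fin n} (hg : Equiv.swap a b ∈ G) : (f a).1 = (f b).1 := by
  obtain ⟨h, hh⟩ := (hf _).1 hg
  by_contra hne
  have h1 := hh a
  rw [Equiv.swap_apply_left] at h1
  have h2 : f.symm ((f a).1, !(f a).2) ≠ a := by
    intro h3
    have h4 := congrArg (fun i => (f i).2) h3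
    simp at h4
  have h3 : f.symm ((f a).1, !(f a).2) ≠ b := by
    intro h3
    have h4 := congrArg (fun i => (f i).1) h3
    simp at h4
    exact hne h4
  have h4 := hh (f.symm ((f a).1, !(f a).2))
  rw [Equiv.swap_apply_of_ne_of_ne h2 h3] at h4
  simp only [Equiv.apply_symm_apply] at h4
  exact hne (h4.trans h1.symm)

theorem conj_of_ind_one (hG : IsC2WrS H W G) (g g' : G) (hg : ind g.1 = 1)
    (hg' : ind g'.1 = 1) : IsConj g g' := by
  obtain ⟨f, hf⟩ := hG
  obtain ⟨a, b, hab, h1⟩ := swap_of_ind g.1 hg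
  obtain ⟨a', b', hab', h1'⟩ := swap_of_ind g'.1 hg'
  have hb := block_of_swap hf (h1 ▸ g.2)
  have hb' := block_of_swap hf (h1' ▸ g'.2)
  -- the translation
  obtain ⟨k, hk⟩ := MulAction.exists_smul_eq H (f a).1 (f a').1
  let t : Equiv.Perm ((H ⧸ W) × Bool) := (MulAction.toPerm k).prodCongr (Equiv.refl Bool)
  let T : Equiv.Perm (Fin n) := f.trans (t.trans f.symm)
  have hTf : ∀ i, f (T i) = (k • (f i).1, (f i).2) := by
    intro i; simp [T, t, Prod.map]
  have hT : T ∈ G := by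
    rw [hf]
    exact ⟨k, fun i => by rw [hTf]⟩
  have hTa : (f (T a)).1 = (f a').1 := by rw [hTf]; exact hk
  have hTb : (f (T b)).1 = (f a').1 := by
    rw [hTf]
    change k • (f b).1 = (f a').1
    rw [← hb, hk]
  have hTab : T a ≠ T b := fun h => hab (T.injective h)
  rw [isConj_iff]
  refine ⟨⟨T, hT⟩, ?_⟩
  apply Subtype.ext
  change T * g.1 * T⁻¹ = g'.1
  rw [h1, h1', ← Equiv.swap_apply_apply]
  -- `{T a, T b} = {a', b'}`
  have key : ∀ x y z w : (H ⧸ W) × Bool, x.1 = z.1 → y.1 = z.1 → w.1 = z.1 → x ≠ y → z ≠ w →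
      (x = z ∧ y = w) ∨ (x = w ∧ y = z) := by
    rintro ⟨x, bx⟩ ⟨y, by'⟩ ⟨z, bz⟩ ⟨w, bw⟩ h1 h2 h3 h4 h5
    simp only at h1 h2 h3
    subst h1 h2 h3
    simp only [ne_eq, Prod.mk.injEq, true_and] at h4 h5 ⊢
    cases bx <;> cases by' <;> cases bz <;> cases bw <;> simp_all
  rcases key (f (T a)) (f (T b)) (f a') (f b') hTa hTb hb'.symm
    (fun h => hTab (f.injective h)) (fun h => hab' (f.injective h)) with h | h
  · rw [f.injective h.1, f.injective h.2]
  · rw [f.injective h.1, f.injective h.2, Equiv.swap_comm]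

theorem hasGp_iff (K : Type) [Field K] (hG : IsC2WrS H W G)
    (L : IntermediateField K (AlgebraicClosure K)) :
    HasGp K G L ↔ IsWrS K (AlgebraicClosure K) H W L := by
  obtain ⟨f, hf⟩ := hG
  constructor
  · rintro ⟨e, he⟩
    refine ⟨e.trans f, fun π => ?_⟩
    have h1 := hf (f.trans (π.trans f.symm))
    have h2 := he (f.trans (π.trans f.symm))
    have h3 : π ∈ WrS H W ↔ f.trans (π.trans f.symm) ∈ G := by
      rw [h1]
      constructor
      · rintro ⟨h, hh⟩
        exact ⟨h, fun i => by simpa using hh (f i)⟩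
      · rintro ⟨h, hh⟩
        refine ⟨h, fun x => ?_⟩
        have := hh (f.symm x)
        simpa using this
    rw [h3, h2]
    constructor
    · rintro ⟨σ, hσ⟩
      refine ⟨σ, fun φ => ?_⟩
      have := hσ φ
      simp only [Equiv.trans_apply] at this ⊢
      rw [this]
      simp
    · rintro ⟨σ, hσ⟩
      refine ⟨σ, fun φ => ?_⟩
      have := hσ φ
      simp only [Equiv.trans_apply] at this ⊢
      rw [← this]
      simp
  · rintro ⟨e, he⟩
    refine ⟨e.trans f.symm, fun π => ?_⟩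
    have h1 := hf π
    have h2 := he (f.symm.trans (π.trans f))
    have h3 : π ∈ G ↔ f.symm.trans (π.trans f) ∈ WrS H W := by
      rw [h1]
      constructor
      · rintro ⟨h, hh⟩
        refine ⟨h, fun x => ?_⟩
        have := hh (f.symm x)
        simpa using this
      · rintro ⟨h, hh⟩
        exact ⟨h, fun i => by simpa using hh (f i)⟩
    rw [h3, h2]
    constructor
    · rintro ⟨σ, hσ⟩
      refine ⟨σ, fun φ => ?_⟩
      have := hσ φ
      simp only [Equiv.trans_apply] at this ⊢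
      rw [this]
      simp
    · rintro ⟨σ, hσ⟩
      refine ⟨σ, fun φ => ?_⟩
      have := hσ φ
      simp only [Equiv.trans_apply] at this ⊢
      rw [← this]
      simp

end

theorem t_PG : S_PG := by
  intro H _ _ W n G hG
  exact ⟨deg hG, least_ind hG, conj_of_ind_one hG, fun K _ L => hasGp_iff K hG L⟩

end Pool.Agent.Q110.CAPG
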