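import Pool.Agent.Q88.MF.Stm

/-!
# Project MF (helper88), job FIN
-/

set_option autoImplicit false

open Set MeasureTheory Filter Topology
open scoped ContDiff ENNReal NNReal

namespace Pool.Agent.Q110.MF

open Pool.Agent.Q88.MF

theorem fin (h : S_hom) (h1 : S_cls) (h2 : S_axi) (h3 : S_mod) : S_fin := by
  intro d β hd hadm
  by_contra hcon
  rw [not_le] at hcon
  obtain ⟨hβ, hadm⟩ := hadm
  have hd' : (1 : ℝ) ≤ d := by exact_mod_cast hd
  have hdp : (0 : ℝ) < (d : ℝ) + 1 := by linarith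
  have hlt : max 1 (1 / β) < (d : ℝ) + 1 := by
    rw [max_lt_iff]
    refine ⟨by linarith, ?_⟩
    rw [one_div_lt hβ hdp]
    exact hcon
  obtain ⟨a, ha1, ha2⟩ := exists_between hlt
  rw [max_lt_iff] at ha1
  obtain ⟨ha0, ha1⟩ := ha1
  have hab : 1 < a * β := by
    rw [div_lt_iff₀ hβ] at ha1
    exact ha1
  obtain ⟨e, he⟩ := h d a ha0
  have hFD := h1 d a ha0 ha2 e he
  obtain ⟨C, hC⟩ := hadm e.toOpenPartialHomeomorph hFD 0 1 one_pos (by simp)
  obtain ⟨s, hs0, hs1, hsR, hsC⟩ := h3 a β C 1 ha0 hβ hab one_pos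
  obtain ⟨hF, hF0, hm⟩ := h2 d a s ha0 hs0
  have he0 : ‖e0 d‖ = 1 := by simp [e0]
  have hx : e (s • e0 d) = mf a s • e0 d := by rw [he, hF]
  have hx0 : e 0 = 0 := by rw [he, hF0]
  have hn : ‖mf a s • e0 d‖ = mf a s := by
    rw [norm_smul, he0, mul_one, Real.norm_of_nonneg hm.le]
  have h4 := hC (mf a s • e0 d) (by rw [mem_ball_zero_iff, hn]; exact hsR) (by
    intro h5
    rw [h5, norm_zero] at hn
    exact hm.ne hn)
  rw [sub_zero, hn] at h4
  have h5 : e.toOpenPartialHomeomorph.symm (mf a s • e0 d) = s • e0 d := by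
    show e.symm (mf a s • e0 d) = s • e0 d
    rw [← hx, e.symm_apply_apply]
  have h6 : e.toOpenPartialHomeomorph.symm 0 = 0 := by
    show e.symm 0 = 0
    rw [← hx0, e.symm_apply_apply]
    rw [hx0]
  rw [h5, h6, sub_zero, norm_smul, he0, mul_one, Real.norm_of_nonneg hs0.le] at h4
  linarith

end Pool.Agent.Q110.MF
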