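import Pool.Agent.Q88.MF.Stm

/-!
# Project MF (helper88), job NUL
-/

set_option autoImplicit false

open Set MeasureTheory Filter Topology
open scoped ContDiff ENNReal NNReal

namespace Pool.Agent.Q110.MF

open Pool.Agent.Q88.MF

theorem nul : S_nul := by
  intro d
  set S : Submodule ℝ (E (d + 1)) := LinearMap.ker
    (EuclideanSpace.proj (0 : Fin (d + 1)) : E (d + 1) →L[ℝ] ℝ).toLinearMap with hS
  have hne : S ≠ ⊤ := by
    intro h
    have h1 : (EuclideanSpace.single (0 : Fin (d + 1)) (1 : ℝ) : E (d + 1)) ∈ S := by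
      rw [h]
      trivial
    rw [hS, LinearMap.mem_ker] at h1
    simp at h1
  have h0 := Measure.addHaar_submodule (volume : Measure (E (d + 1))) S hne
  rw [ae_iff]
  convert h0 using 2
  ext x
  simp [hS]

end Pool.Agent.Q110.MF
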