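import Mathlib
import Pool.Agent.Q61.MH.Stm

/-!
# Project MH: job RED
-/

set_option autoImplicit false

open Real Filter Topology

noncomputable section

namespace Pool.Agent.Q61.MH

theorem red : S_red := by
  intro r D y k hr hyk hD hS
  have hr0 : 0 < r := by linarith
  have hyk' : (y : ℝ) < k := by exact_mod_cast hyk
  have hy0 : (0 : ℝ) ≤ y := Nat.cast_nonneg y
  set N : ℝ := (k : ℝ) + 1 / 2 with hN'
  set m : ℝ := (k : ℝ) - y with hm'
  have hm : 0 < m := by rw [hm']; linarith
  have hN : 0 < N := by rw [hN']; linarith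
  have hNm : 0 < N - m := by rw [hN', hm']; linarith
  set τ : ℝ := m * (r + 1) / N with hτ'
  have hτ : 0 < τ := by rw [hτ']; positivity
  have h1 : 2 * (y : ℝ) + 1 = 2 * (N - m) := by rw [hN', hm']; ring
  have hSpos : 0 < N ^ (r + 1) / (r + 1) * D := by positivity
  have hq : 2 * (N - m) / N = 2 * r / (r + 1) * (1 + (1 - τ) / r) := by
    rw [hτ']
    field_simp
    ring
  have hpos : 0 < 1 + (1 - τ) / r := by
    have h2 : 0 < 2 * (N - m) / N := by positivity
    rw [hq] at h2
    have h3 : 0 < 2 * r / (r + 1) := by positivity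
    exact (pos_iff_pos_of_mul_pos h2).1 h3
  have hpow : (2 * (N - m) / N) ^ r ≤ base r * Real.exp (1 - τ) := by
    rw [hq, Real.mul_rpow (by positivity) hpos.le]
    unfold base
    apply mul_le_mul_of_nonneg_left _ (by positivity)
    have h2 : 1 + (1 - τ) / r ≤ Real.exp ((1 - τ) / r) := by
      have := Real.add_one_le_exp ((1 - τ) / r)
      linarith
    calc (1 + (1 - τ) / r) ^ r ≤ (Real.exp ((1 - τ) / r)) ^ r :=
          Real.rpow_le_rpow hpos.le h2 hr0.le
      _ = Real.exp (1 - τ) := by
          rw [← Real.exp_mul]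
          congr 1
          field_simp
  have hbase : 0 < base r := by unfold base; positivity
  unfold G
  calc (2 * (y : ℝ) + 1) ^ r * m / S k r
      ≤ (2 * (y : ℝ) + 1) ^ r * m / (N ^ (r + 1) / (r + 1) * D) := by
        apply div_le_div_of_nonneg_left (by positivity) hSpos hS
    _ = τ * (2 * (N - m) / N) ^ r / D := by
        rw [h1, Real.div_rpow (by positivity) hN.le, Real.rpow_add_one hN.ne', hτ']
        have : 0 < N ^ r := by positivity
        field_simp
    _ ≤ τ * (base r * Real.exp (1 - τ)) / D := by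
        apply div_le_div_of_nonneg_right _ hD.le
        exact mul_le_mul_of_nonneg_left hpow hτ.le
    _ = base r * (τ * Real.exp (1 - τ) / D) := by ring

end Pool.Agent.Q61.MH
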