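import Mathlib
import Pool.Agent.Q61.MH.Stm

/-!
# Project MH: job SUM3
-/

set_option autoImplicit false

open Real Filter Topology

noncomputable section

namespace Pool.Agent.Q61.MH

lemma sum3_tan (q a b : ℝ) (hq : 1 ≤ q) (ha : 0 < a) (hb : 0 ≤ b) :
    a ^ q + q * a ^ (q - 1) * (b - a) ≤ b ^ q := by
  have h0 : 0 ≤ b / a := by positivity
  have h := one_add_mul_self_le_rpow_one_add (s := b / a - 1) (by linarith) hq
  rw [show 1 + (b / a - 1) = b / a by ring, Real.div_rpow hb ha.le] at h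
  have ha' : 0 < a ^ q := by positivity
  rw [le_div_iff₀ ha'] at h
  have e1 : a ^ (q - 1) = a ^ q / a := Real.rpow_sub_one ha.ne' q
  have e : a ^ q + q * a ^ (q - 1) * (b - a) = (1 + q * (b / a - 1)) * a ^ q := by
    rw [e1]
    field_simp
  rw [e]
  exact h

lemma sum3_mid (p a : ℝ) (hp : 1 ≤ p) (ha : 0 ≤ a) :
    (a + 1 / 2) ^ p ≤ ((a + 1) ^ (p + 1) - a ^ (p + 1)) / (p + 1) := by
  rw [← integral_rpow (a := a) (b := a + 1) (r := p) (Or.inl (by linarith))]
  have hc : 0 < a + 1 / 2 := by linarith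
  have h1 : ∫ t in a..(a + 1), ((a + 1 / 2) ^ p + p * (a + 1 / 2) ^ (p - 1) * (t - (a + 1 / 2))) =
      (a + 1 / 2) ^ p := by
    rw [intervalIntegral.integral_add (by simp) (by
      apply Continuous.intervalIntegrable; fun_prop), intervalIntegral.integral_const,
      intervalIntegral.integral_const_mul, intervalIntegral.integral_sub (by
      apply Continuous.intervalIntegrable; fun_prop) (by simp), integral_id,
      intervalIntegral.integral_const]
    simp only [smul_eq_mul]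
    ring
  rw [← h1]
  apply intervalIntegral.integral_mono_on (by linarith)
  · apply Continuous.intervalIntegrable
    fun_prop
  · apply intervalIntegral.intervalIntegrable_rpow'
    linarith
  · intro t ht
    exact sum3_tan p (a + 1 / 2) t hp hc (ha.trans ht.1)

theorem sum3 (h : S_loc1) : S_sum3 := by
  intro r k hr hk
  have hk0 : (0 : ℝ) < k := by exact_mod_cast hk
  have hA : ∀ n : ℕ, ∑ i ∈ Finset.range n, ((i : ℝ) + 1 / 2) ^ (r - 2) ≤
      (n : ℝ) ^ (r - 1) / (r - 1) := by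
    intro n
    induction n with
    | zero =>
      simp only [Finset.range_zero, Finset.sum_empty, Nat.cast_zero]
      rw [Real.zero_rpow (by linarith)]
      simp
    | succ n ih =>
      rw [Finset.sum_range_succ]
      have h1 := sum3_mid (r - 2) n (by linarith) (Nat.cast_nonneg n)
      have e : r - 2 + 1 = r - 1 := by ring
      rw [e] at h1
      push_cast
      have e2 : ((n : ℝ) + 1) ^ (r - 1) / (r - 1) = (n : ℝ) ^ (r - 1) / (r - 1) +
          (((n : ℝ) + 1) ^ (r - 1) - (n : ℝ) ^ (r - 1)) / (r - 1) := by ring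
      rw [e2]
      exact add_le_add ih h1
  have hB : ∀ n : ℕ, ∑ i ∈ Finset.range n, ((((i : ℝ) + 1) + 1 / 2) ^ (r + 1) -
      (((i : ℝ) + 1) - 1 / 2) ^ (r + 1)) / (r + 1) =
      (((n : ℝ) + 1 / 2) ^ (r + 1) - (1 / 2) ^ (r + 1)) / (r + 1) := by
    intro n
    induction n with
    | zero => simp
    | succ n ih =>
      rw [Finset.sum_range_succ, ih]
      push_cast
      have e : (n : ℝ) + 1 - 1 / 2 = n + 1 / 2 := by ring
      rw [e]
      ring
  have hC : ∀ n : ℕ, ∑ i ∈ Finset.range n, ((((i : ℝ) + 1) - 1 / 2) ^ (r - 2) +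
      (((i : ℝ) + 1) + 1 / 2) ^ (r - 2)) =
      2 * (∑ i ∈ Finset.range n, ((i : ℝ) + 1 / 2) ^ (r - 2)) + ((n : ℝ) + 1 / 2) ^ (r - 2) -
        (1 / 2) ^ (r - 2) := by
    intro n
    induction n with
    | zero => simp
    | succ n ih =>
      rw [Finset.sum_range_succ, ih, Finset.sum_range_succ]
      push_cast
      have e : (n : ℝ) + 1 - 1 / 2 = n + 1 / 2 := by ring
      rw [e]
      ring
  have hmain : ∑ i ∈ Finset.range k, (((((i : ℝ) + 1) + 1 / 2) ^ (r + 1) -
      (((i : ℝ) + 1) - 1 / 2) ^ (r + 1)) / (r + 1) - r * (r - 1) / 48 *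
        ((((i : ℝ) + 1) - 1 / 2) ^ (r - 2) + (((i : ℝ) + 1) + 1 / 2) ^ (r - 2))) ≤ S k r := by
    unfold S
    apply Finset.sum_le_sum
    intro i _
    exact h r ((i : ℝ) + 1) (Or.inr hr) (by have := Nat.cast_nonneg (α := ℝ) i; linarith)
  rw [Finset.sum_sub_distrib, ← Finset.mul_sum, hB, hC] at hmain
  have hAk := hA k
  set N : ℝ := (k : ℝ) + 1 / 2 with hN'
  have hN : 0 < N := by rw [hN']; linarith
  have t1 := sum3_tan (r - 1) k N (by linarith) hk0 hN.le
  have t2 := sum3_tan (r - 2) N k (by linarith) hN hk0.le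
  have e1 : r - 1 - 1 = r - 2 := by ring
  have e2 : r - 2 - 1 = r - 3 := by ring
  have e3 : N - k = 1 / 2 := by rw [hN']; ring
  have e4 : (k : ℝ) - N = -(1 / 2) := by rw [hN']; ring
  rw [e1, e3] at t1
  rw [e2, e4] at t2
  have hr1 : 0 < r - 1 := by linarith
  -- `Q ≤ 2 N^(r-1)/(r-1) + (r-2)/2 N^(r-3)`
  have hQ : 2 * (∑ i ∈ Finset.range k, ((i : ℝ) + 1 / 2) ^ (r - 2)) + N ^ (r - 2) -
      (1 / 2) ^ (r - 2) ≤ 2 * (N ^ (r - 1) / (r - 1)) + (r - 2) / 2 * N ^ (r - 3) := by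
    have h2 : (0 : ℝ) ≤ (1 / 2) ^ (r - 2) := by positivity
    have h3 : (k : ℝ) ^ (r - 1) / (r - 1) ≤ N ^ (r - 1) / (r - 1) - (k : ℝ) ^ (r - 2) / 2 := by
      rw [le_sub_iff_add_le, div_add' _ _ _ hr1.ne']
      apply div_le_div_of_nonneg_right _ hr1.le
      linarith
    linarith
  have hc : 0 ≤ r * (r - 1) / 48 := by
    apply div_nonneg _ (by norm_num)
    exact mul_nonneg (by linarith) hr1.le
  have hQ2 := mul_le_mul_of_nonneg_left hQ hc
  have e5 : r * (r - 1) / 48 * (2 * (N ^ (r - 1) / (r - 1)) + (r - 2) / 2 * N ^ (r - 3)) =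
      r * N ^ (r - 1) / 24 + r * (r - 1) * (r - 2) / 96 * N ^ (r - 3) := by
    field_simp
    ring
  rw [e5] at hQ2
  have e6 : (N ^ (r + 1) - (1 / 2) ^ (r + 1)) / (r + 1) =
      N ^ (r + 1) / (r + 1) - (1 / 2) ^ (r + 1) / (r + 1) := by ring
  rw [e6] at hmain
  linarith

end Pool.Agent.Q61.MH
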