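import Pool.Agent.Q88.PS.Stm

set_option autoImplicit false

open MeasureTheory Set Filter Topology
open scoped ENNReal NNReal

noncomputable section

namespace Pool.Agent.Q110.PSh

open Pool.Agent.Q88.PS

lemma da_le (d : D) : (da d : ℝ) ≤ 5 := by
  have : da d ≤ 5 := by unfold da; omega
  exact_mod_cast this

lemma db_le (d : D) : (db d : ℝ) ≤ 5 := by
  have : db d ≤ 5 := by unfold db; omega
  exact_mod_cast this

lemma summable_aux (f : D → ℕ) (hf : ∀ d, (f d : ℝ) ≤ 5) (w : ℕ → D) :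
    Summable fun n => (1 / 8 : ℝ) ^ (n + 1) * f (w n) := by
  have h : Summable fun n : ℕ => (1 / 8 : ℝ) ^ (n + 1) * 5 := by
    refine Summable.mul_right _ ?_
    exact (summable_nat_add_iff 1).2 (summable_geometric_of_lt_one (by norm_num) (by norm_num))
  refine Summable.of_nonneg_of_le (fun n => by positivity) (fun n => ?_) h
  exact mul_le_mul_of_nonneg_left (hf _) (by positivity)

lemma tsum_aux (f : D → ℕ) (hf : ∀ d, (f d : ℝ) ≤ 5) (w : ℕ → D) :
    ∑' n, (1 / 8 : ℝ) ^ (n + 1) * f (w n) =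
      1 / 8 * (∑' n, (1 / 8 : ℝ) ^ (n + 1) * f (w (n + 1)) + f (w 0)) := by
  rw [(summable_aux f hf w).tsum_eq_zero_add, mul_add, ← tsum_mul_left]
  have : ∀ n : ℕ, (1 / 8 : ℝ) ^ (n + 1 + 1) * f (w (n + 1)) =
      1 / 8 * ((1 / 8 : ℝ) ^ (n + 1) * f (w (n + 1))) := fun n => by ring
  simp_rw [this]
  ring

lemma code_eq (w : ℕ → D) : code w = psi (w 0) (code fun n => w (n + 1)) := by
  have h0 := tsum_aux da da_le w
  have h1 := tsum_aux db db_le w
  ext i
  fin_cases i
  · simp only [code, psi, dv, PiLp.smul_apply, PiLp.add_apply, smul_eq_mul]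
    simpa using h0
  · simp only [code, psi, dv, PiLp.smul_apply, PiLp.add_apply, smul_eq_mul]
    simpa using h1

lemma dist_psi (d : D) (x y : E2) : dist (psi d x) (psi d y) = 1 / 8 * dist x y := by
  unfold psi
  rw [dist_smul₀, dist_add_right]
  norm_num

lemma code_mem (w : ℕ → D) : code w ∈ KK := ⟨w, rfl⟩

lemma dist_code (h1 : S_sep) : ∀ (n : ℕ) (w w' : ℕ → D), (∀ i < n, w i = w' i) → w n ≠ w' n →
    (1 / 8 : ℝ) ^ n / 28 ≤ dist (code w) (code w') := by
  intro n
  induction n with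
  | zero =>
    intro w w' _ hne
    rw [code_eq w, code_eq w']
    have := h1 (w 0) (w' 0) hne (code fun n => w (n + 1)) (code_mem _) (code fun n => w' (n + 1)) (code_mem _)
    simpa using this
  | succ n ih =>
    intro w w' heq hne
    rw [code_eq w, code_eq w', heq 0 (by omega), dist_psi]
    have := ih (fun n => w (n + 1)) (fun n => w' (n + 1)) (fun i hi => heq (i + 1) (by omega)) hne
    rw [pow_succ]
    linarith

lemma exists_first {w w' : ℕ → D} (h : w ≠ w') : ∃ n, (∀ i < n, w i = w' i) ∧ w n ≠ w' n := by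
  classical
  have h2 : ∃ n, w n ≠ w' n := by
    by_contra hc
    push Not at hc
    exact h (funext hc)
  exact ⟨Nat.find h2, fun i hi => by simpa using Nat.find_min h2 hi, Nat.find_spec h2⟩

lemma code_inj (h1 : S_sep) : Function.Injective code := by
  intro w w' h
  by_contra hne
  obtain ⟨n, hn, hn'⟩ := exists_first hne
  have := dist_code h1 n w w' hn hn'
  rw [h, dist_self] at this
  have h3 : (0 : ℝ) < (1 / 8 : ℝ) ^ n / 28 := by positivity
  linarith

/-- The address of a point of `K`. -/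
def addr (x : E2) : ℕ → D := by
  classical
  exact if h : x ∈ KK then h.choose else fun _ => (0, 0)

lemma code_addr {x : E2} (h : x ∈ KK) : code (addr x) = x := by
  classical
  unfold addr
  rw [dif_pos h]
  exact h.choose_spec

/-- The Hölder map. -/
def gg (x : E2) : ℝ := Real.ofDigits (fun n => finProdFinEquiv (addr x n))

lemma gg_dist (h1 : S_sep) {x y : E2} (hx : x ∈ KK) (hy : y ∈ KK) :
    dist (gg x) (gg y) ≤ (28 : ℝ) ^ (4 / 3 : ℝ) * dist x y ^ (4 / 3 : ℝ) := by
  by_cases hxy : addr x = addr y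
  · have : gg x = gg y := by unfold gg; rw [hxy]
    rw [this, dist_self]
    positivity
  obtain ⟨n, hn, hn'⟩ := exists_first hxy
  have h2 := dist_code h1 n _ _ hn hn'
  rw [code_addr hx, code_addr hy] at h2
  have h3 : dist (gg x) (gg y) ≤ (((4 * 4 : ℕ) : ℝ) ^ n)⁻¹ := by
    rw [Real.dist_eq]
    exact Real.abs_ofDigits_sub_ofDigits_le fun i hi => by rw [hn i hi]
  refine h3.trans ?_
  rw [← Real.mul_rpow (by norm_num) dist_nonneg]
  have h4 : (1 / 8 : ℝ) ^ n ≤ 28 * dist x y := by linarith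
  refine le_trans (le_of_eq ?_) (Real.rpow_le_rpow (by positivity) h4 (by norm_num))
  rw [← Real.rpow_natCast (1 / 8 : ℝ) n, ← Real.rpow_mul (by norm_num), mul_comm (n : ℝ),
    Real.rpow_mul (by norm_num), Real.rpow_natCast]
  have h5 : (1 / 8 : ℝ) ^ (4 / 3 : ℝ) = 1 / 16 := by
    rw [show (1 / 8 : ℝ) = (1 / 2) ^ (3 : ℝ) by norm_num, ← Real.rpow_mul (by norm_num)]
    norm_num
  rw [h5]
  push_cast
  rw [← inv_pow]
  norm_num

lemma gg_surj (h1 : S_sep) : Ico (0 : ℝ) 1 ⊆ gg '' KK := by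
  intro t ht
  have hb : 1 < 4 * 4 := by norm_num
  have : NeZero (4 * 4) := ⟨by norm_num⟩
  refine ⟨code fun n => finProdFinEquiv.symm (Real.digits t (4 * 4) n), code_mem _, ?_⟩
  have h2 : addr (code fun n => finProdFinEquiv.symm (Real.digits t (4 * 4) n)) =
      fun n => finProdFinEquiv.symm (Real.digits t (4 * 4) n) :=
    code_inj h1 (code_addr (code_mem _))
  unfold gg
  rw [h2]
  simp only [Equiv.apply_symm_apply]
  exact Real.ofDigits_digits hb ht

/-- **JOB HPOS.** -/
theorem hpos (_h : S_base) (h1 : S_sep) : S_hpos := by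
  unfold S_hpos
  have h43 : ((4 / 3 : ℝ≥0) : ℝ) = 4 / 3 := by norm_num
  have hH : HolderOnWith (Real.toNNReal ((28 : ℝ) ^ (4 / 3 : ℝ))) (4 / 3 : ℝ≥0) gg KK := by
    intro x hx y hy
    have h2 := gg_dist h1 hx hy
    rw [edist_dist, edist_dist, h43]
    refine (ENNReal.ofReal_le_ofReal h2).trans (le_of_eq ?_)
    rw [ENNReal.ofReal_mul (by positivity), ENNReal.ofReal_rpow_of_nonneg dist_nonneg (by norm_num)]
    rfl
  have h3 := hH.hausdorffMeasure_image_le (by positivity) (d := 1) (by norm_num)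
  rw [hausdorffMeasure_real, h43, mul_one] at h3
  have h4 : (1 : ℝ≥0∞) ≤ volume (gg '' KK) := by
    refine le_trans ?_ (measure_mono (gg_surj h1))
    simp
  have h5 := h4.trans h3
  by_contra h0
  have h6 : μH[(4 / 3 : ℝ)] KK = 0 := by simpa using h0
  rw [h6, mul_zero] at h5
  simp at h5

end Pool.Agent.Q110.PSh
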