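import Pool.Agent.Q88.PS.Stm

set_option autoImplicit false

open MeasureTheory Set Filter Topology
open scoped ENNReal NNReal

noncomputable section

namespace Pool.Agent.Q110.PSj

open Pool.Agent.Q88.PS

/-- For odd residues `P`, `Q` modulo `8` every residue is represented by exactly two digits. -/
lemma two_digits : ∀ P Q : ZMod 8, (P = 1 ∨ P = 3 ∨ P = 5 ∨ P = 7) →
    (Q = 1 ∨ Q = 3 ∨ Q = 5 ∨ Q = 7) → ∀ i : ZMod 8,
    (Finset.univ.filter fun d : D => i = -(Q * (da d : ZMod 8) + P * (db d : ZMod 8))).card = 2 := by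
  decide +kernel

lemma odd_mod8 {p : ℕ} (hp : Odd p) :
    ((p : ZMod 8) = 1 ∨ (p : ZMod 8) = 3 ∨ (p : ZMod 8) = 5 ∨ (p : ZMod 8) = 7) := by
  have h : p % 8 = 1 ∨ p % 8 = 3 ∨ p % 8 = 5 ∨ p % 8 = 7 := by
    rcases hp with ⟨k, rfl⟩
    omega
  have h2 : (p : ZMod 8) = ((p % 8 : ℕ) : ZMod 8) := by simp
  rw [h2]
  rcases h with h | h | h | h <;> rw [h] <;> simp

lemma tsum_shift (G : ℤ → ℝ≥0∞) (m : ℤ) :
    ∑' j : ℤ, G (8 * j - m) = ∑' i : ℤ, if (i : ZMod 8) = -(m : ZMod 8) then G i else 0 := by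
  have hinj : Function.Injective fun j : ℤ => 8 * j - m := by
    intro a b h
    simp only at h
    omega
  have hsup : Function.support (fun i : ℤ => if (i : ZMod 8) = -(m : ZMod 8) then G i else 0) ⊆
      Set.range fun j : ℤ => 8 * j - m := by
    intro i hi
    have h1 : (i : ZMod 8) = -(m : ZMod 8) := by
      by_contra hne
      exact hi (by simp [hne])
    have h2 : ((i + m : ℤ) : ZMod 8) = 0 := by
      push_cast
      rw [h1]
      ring
    rw [ZMod.intCast_zmod_eq_zero_iff_dvd] at h2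
    obtain ⟨k, hk⟩ := h2
    exact ⟨k, by simp only; push_cast at hk; omega⟩
  rw [← hinj.tsum_eq hsup]
  refine tsum_congr fun j => ?_
  have h3 : ((8 * j - m : ℤ) : ZMod 8) = -(m : ZMod 8) := by
    have h8 : (8 : ZMod 8) = 0 := by decide
    push_cast
    rw [h8]
    ring
  simp only [h3, if_true]

/-- **JOB PER.** -/
theorem per : S_per := by
  intro p q hp hq F τ
  have hq0 : (q : ℝ) ≠ 0 := by
    rcases hq with ⟨k, rfl⟩
    positivity
  set G : ℤ → ℝ≥0∞ := fun i => F (8 * τ + i / q) with hG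
  have h1 : ∀ j : ℤ, TT ((p : ℝ) / q) F (τ + j / q) =
      2⁻¹ * ∑ d : D, G (8 * j - (q * da d + p * db d : ℤ)) := by
    intro j
    unfold TT dl
    congr 1
    refine Finset.sum_congr rfl fun d _ => ?_
    simp only [hG]
    congr 1
    push_cast
    field_simp
    ring
  simp_rw [h1]
  rw [ENNReal.tsum_mul_left, Summable.tsum_finsetSum (fun _ _ => ENNReal.summable)]
  simp_rw [tsum_shift G]
  rw [← Summable.tsum_finsetSum (fun _ _ => ENNReal.summable)]
  have h2 : ∀ i : ℤ, (∑ d : D, if (i : ZMod 8) = -((q * da d + p * db d : ℤ) : ZMod 8)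
      then G i else 0) = 2 * G i := by
    intro i
    rw [← Finset.sum_filter, Finset.sum_const]
    have h3 := two_digits (p : ZMod 8) (q : ZMod 8) (odd_mod8 hp) (odd_mod8 hq) (i : ZMod 8)
    have h4 : (Finset.univ.filter fun d : D => (i : ZMod 8) =
        -((q * da d + p * db d : ℤ) : ZMod 8)) =
        Finset.univ.filter fun d : D => (i : ZMod 8) =
          -((q : ZMod 8) * (da d : ZMod 8) + (p : ZMod 8) * (db d : ZMod 8)) := by
      refine Finset.filter_congr fun d _ => ?_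
      push_cast
      rfl
    rw [h4, h3]
    simp
  simp_rw [h2]
  rw [ENNReal.tsum_mul_left, ← mul_assoc, ENNReal.inv_mul_cancel (by norm_num) (by norm_num), one_mul]

/-- **JOB BD.** -/
theorem bd (h : S_per) : S_bd := by
  intro p q hp hq hpq n τ
  have hq1 : 1 ≤ q := hq.pos
  have hq0 : (0 : ℝ) < q := by exact_mod_cast hq1
  have hiter : ∀ (n : ℕ) (F : ℝ → ℝ≥0∞) (τ : ℝ),
      ∑' j : ℤ, (TT ((p : ℝ) / q))^[n] F (τ + j / q) = ∑' i : ℤ, F (8 ^ n * τ + i / q) := by
    intro n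
    induction n with
    | zero => intro F τ; simp
    | succ n ih =>
      intro F τ
      simp_rw [Function.iterate_succ_apply']
      rw [h p q hp hq, ih F (8 * τ)]
      refine tsum_congr fun i => ?_
      congr 1
      ring
  have h1 : (TT ((p : ℝ) / q))^[n] (ind ((p : ℝ) / q)) τ ≤
      ∑' j : ℤ, (TT ((p : ℝ) / q))^[n] (ind ((p : ℝ) / q)) (τ + j / q) := by
    refine le_trans (le_of_eq ?_) (ENNReal.le_tsum (0 : ℤ))
    simp
  refine h1.trans ?_
  rw [hiter]
  set x := 8 ^ n * τ with hx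
  set L := LL ((p : ℝ) / q) with hL
  have hLle : L ≤ 3 / 2 := by
    rw [hL]
    unfold LL
    linarith
  set I : Finset ℤ := Finset.Icc (⌊-(q * x)⌋ + 1) (⌊-(q * x)⌋ + 1 + 2 * q) with hI
  have hout : ∀ i : ℤ, i ∉ I → ind ((p : ℝ) / q) (x + i / q) = 0 := by
    intro i hi
    unfold ind
    refine Set.indicator_of_notMem ?_ _
    intro hmem
    apply hi
    rw [hI, Finset.mem_Icc]
    obtain ⟨ha, hb⟩ := hmem
    have ha' : -(q * x) < i := by
      have := mul_pos hq0 ha
      rw [mul_add, mul_div_cancel₀ _ hq0.ne'] at this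
      linarith
    have hb' : (i : ℝ) < -(q * x) + q * (3 / 2) := by
      have h5 : x + i / q < 3 / 2 := lt_of_lt_of_le hb hLle
      have := mul_lt_mul_of_pos_left h5 hq0
      rw [mul_add, mul_div_cancel₀ _ hq0.ne'] at this
      linarith
    constructor
    · have : ⌊-(q * x)⌋ < i := Int.floor_lt.2 ha'
      omega
    · have h6 : (-(q * x) : ℝ) < ⌊-(q * x)⌋ + 1 := Int.lt_floor_add_one _
      have h7 : (i : ℝ) < (⌊-(q * x)⌋ + 1 + 2 * q : ℤ) := by
        push_cast
        nlinarith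
      exact_mod_cast h7.le
  rw [tsum_eq_sum (s := I) (fun i hi => hout i hi)]
  have hone : ∀ i ∈ I, ind ((p : ℝ) / q) (x + i / q) ≤ 1 := by
    intro i _
    unfold ind
    exact Set.indicator_le_self' (fun _ _ => by simp) _
  refine (Finset.sum_le_card_nsmul _ _ _ hone).trans ?_
  rw [hI, Int.card_Icc]
  have h8 : (⌊-(q * x)⌋ + 1 + 2 * (q : ℤ) + 1 - (⌊-(q * x)⌋ + 1)).toNat = 2 * q + 1 := by omega
  rw [h8]
  simp

end Pool.Agent.Q110.PSj
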